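import Mathlib
import Pool.Agent.L5helper76.DD.Final
import Pool.Agent.L5helper76.DD.FT2

/-!
# MP_24bb3f_an, Q1: arbitrarily slow dispersive decay for periodically forced Dirac equations
-/

set_option autoImplicit false

open MeasureTheory Set FourierTransform

namespace Pool.Agent.Results.MP_24bb3f_an.ArbitrarilySlow

/-- The values of spinor fields: `ℂ²` with its Euclidean norm. -/
abbrev Sp := EuclideanSpace ℂ (Fin 2)

/-- Complex two by two matrices. -/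
abbrev M2 := Matrix (Fin 2) (Fin 2) ℂ

/-- The first Pauli matrix. -/
def σ₁ : M2 := !![0, 1; 1, 0]

/-- The third Pauli matrix. -/
def σ₃ : M2 := !![1, 0; 0, -1]

/-- `ν` is bounded, measurable and periodic. -/
def BoundedPeriodic (ν : ℝ → M2) : Prop :=
  (∃ B : ℝ, ∀ t i j, ‖ν t i j‖ ≤ B) ∧ (∀ i j, Measurable fun t => ν t i j) ∧
    ∃ T : ℝ, 0 < T ∧ Function.Periodic ν T

/-- `U` is, for times `t ≥ 0`, the propagator of the equation
`i dα/dt = (-k σ₃ + ν(t)) α` at frequency `k`: it is continuous on `[0, ∞)` and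
`U(t) = 1 + ∫₀ᵗ (-i) (-k σ₃ + ν(s)) U(s) ds` for all `t ≥ 0`. -/
def IsPropagator (ν : ℝ → M2) (k : ℝ) (U : ℝ → M2) : Prop :=
  (∀ i j, ContinuousOn (fun t => U t i j) (Ici 0)) ∧
  ∀ t, 0 ≤ t → ∀ i j, U t i j = (1 : M2) i j +
    ∫ s in (0:ℝ)..t, -Complex.I * (((-(k : ℂ)) • σ₃ + ν s) * U s) i j

/-- `f` and `F` are square-integrable and `F` is the Fourier transform of `f`, in Mathlib's
convention `f̂(ξ) = ∫ exp (-2 π i x ξ) f(x) dx` and in the sense of distributions: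
`∫ f φ̂ = ∫ F φ` for all test functions `φ`. -/
def IsFourier (f F : ℝ → Sp) : Prop :=
  MemLp f 2 volume ∧ MemLp F 2 volume ∧
    ∀ φ : ℝ → ℂ, ContDiff ℝ (⊤ : ℕ∞) φ → HasCompactSupport φ →
      ∫ x, 𝓕 φ x • f x = ∫ ξ, φ ξ • F ξ

/-- `α` is the value at time `t ≥ 0` of the solution of the forced Dirac equation
`i ∂α/∂t = (i σ₃ ∂ₓ + ν(t)) α` with initial datum `f`, both square-integrable. The operator
`i σ₃ ∂ₓ` has the symbol `-2 π ξ σ₃`, so that `α̂(ξ) = U(t) f̂(ξ)` for the propagator `U` at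
frequency `k = 2 π ξ`. -/
def SolvesAt (ν : ℝ → M2) (f : ℝ → Sp) (t : ℝ) (α : ℝ → Sp) : Prop :=
  ∃ (F A : ℝ → Sp) (U : ℝ → ℝ → M2), IsFourier f F ∧ IsFourier α A ∧
    (∀ k, IsPropagator ν k (U k)) ∧
    ∀ᵐ ξ : ℝ, ∀ i, A ξ i = ∑ j, U (2 * Real.pi * ξ) t i j * F ξ j

/-- The square-integrable field `f` is such that `⟨i ∂ₓ⟩^r f` is the integrable function `h`. -/
def IsWeighted (r : ℝ) (f h : ℝ → Sp) : Prop :=
  Integrable h ∧ ∃ F : ℝ → Sp, IsFourier f F ∧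
    ∀ᵐ ξ : ℝ, ∀ i, 𝓕 h ξ i = (((1 + (2 * Real.pi * ξ) ^ 2) ^ (r / 2) : ℝ) : ℂ) * F ξ i

/-- The decay estimate of order `(r, σ)` holds for `ν`. -/
def DecayEstimate (ν : ℝ → M2) (r σ : ℝ) : Prop :=
  ∃ c : ℝ, ∀ t : ℝ, 0 < t → ∀ f α h : ℝ → Sp, IsWeighted r f h → SolvesAt ν f t α →
    ∀ᵐ x : ℝ, ‖α x‖ ≤ c / t ^ σ * ∫ x, ‖h x‖

/-- `ν` is dispersive. -/
def Dispersive (ν : ℝ → M2) : Prop := ∃ r σ : ℝ, 0 ≤ r ∧ 0 < σ ∧ DecayEstimate ν r σ

/-- The forced Dirac equation has for all `L²` data exactly one solution value at each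
time `t ≥ 0`. -/
def WellPosed (ν : ℝ → M2) : Prop :=
  ∀ (f : ℝ → Sp) (t : ℝ), MemLp f 2 volume → 0 ≤ t →
    ∃ α : ℝ → Sp, SolvesAt ν f t α ∧ ∀ α' : ℝ → Sp, SolvesAt ν f t α' → α' =ᵐ[volume] α

theorem isPropagator_iff (ν : ℝ → M2) (k : ℝ) (U : ℝ → M2) :
    IsPropagator ν k U ↔ H76DD.IsPropagator ν k U :=
  ⟨fun h => ⟨h.1, h.2⟩, fun h => ⟨h.cont, h.eq⟩⟩

theorem IsFourier.mem {f F : ℝ → Sp} (h : IsFourier f F) : MemLp f 2 volume := h.1

theorem isFourier_iff (f F : ℝ → Sp) : IsFourier f F ↔ ∃ hf : MemLp f 2 volume,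
    ((𝓕 (hf.toLp f) : Lp Sp 2 (volume : Measure ℝ)) : ℝ → Sp) =ᵐ[volume] F :=
  H76DD.isFourier_iff f F

theorem solvesAt_iff {ν : ℝ → M2} {f : ℝ → Sp} {t : ℝ} {α : ℝ → Sp} (hf : MemLp f 2 volume)
    (hα : MemLp α 2 volume) :
    SolvesAt ν f t α ↔ H76DD.SolvesAt ν (hf.toLp f) t (hα.toLp α) := by
  constructor
  · rintro ⟨F, A, U, hF, hA, hU, h⟩
    obtain ⟨_, hF⟩ := (isFourier_iff f F).1 hF
    obtain ⟨_, hA⟩ := (isFourier_iff α A).1 hA
    refine ⟨U, fun k => (isPropagator_iff _ _ _).1 (hU k), ?_⟩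
    filter_upwards [hF, hA, h] with ξ h1 h2 h3
    intro i
    rw [h1, h2]
    exact h3 i
  · rintro ⟨U, hU, h⟩
    refine ⟨_, _, U, (isFourier_iff _ _).2 ⟨hf, Filter.EventuallyEq.rfl⟩,
      (isFourier_iff _ _).2 ⟨hα, Filter.EventuallyEq.rfl⟩, fun k => (isPropagator_iff _ _ _).2 (hU k), h⟩

theorem isWeighted_iff {r : ℝ} {f h : ℝ → Sp} (hf : MemLp f 2 volume) :
    IsWeighted r f h ↔ H76DD.IsWeighted r (hf.toLp f) h := by
  constructor
  · rintro ⟨h0, F, hF, hh⟩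
    obtain ⟨_, hF⟩ := (isFourier_iff f F).1 hF
    refine ⟨h0, ?_⟩
    filter_upwards [hF, hh] with ξ h1 h2
    ext i
    rw [h1]
    exact h2 i
  · rintro ⟨h0, hh⟩
    refine ⟨h0, _, (isFourier_iff _ _).2 ⟨hf, Filter.EventuallyEq.rfl⟩, ?_⟩
    filter_upwards [hh] with ξ h1
    intro i
    rw [h1]
    rfl

theorem decayEstimate_iff (ν : ℝ → M2) (r σ : ℝ) :
    DecayEstimate ν r σ ↔ H76DD.DecayEstimate ν r σ := by
  constructor
  · rintro ⟨c, hc⟩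
    refine ⟨c, fun t ht f α h hw hs => ?_⟩
    refine hc t ht f α h ?_ ?_
    · rw [isWeighted_iff (Lp.memLp f), Lp.toLp_coeFn]
      exact hw
    · rw [solvesAt_iff (Lp.memLp f) (Lp.memLp α), Lp.toLp_coeFn, Lp.toLp_coeFn]
      exact hs
  · rintro ⟨c, hc⟩
    refine ⟨c, fun t ht f α h hw hs => ?_⟩
    obtain ⟨F, A, U, hF, hA, -⟩ := id hs
    have h1 := hc t ht (hF.mem.toLp f) (hA.mem.toLp α) h ((isWeighted_iff hF.mem).1 hw)
      ((solvesAt_iff hF.mem hA.mem).1 hs)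
    filter_upwards [h1, hA.mem.coeFn_toLp] with x h2 h3
    rwa [h3] at h2

/-- For every `ε > 0` there is a bounded, periodic, Hermitian-valued (piecewise constant) `ν`
which is dispersive and for which, for every `r ≥ 0`, a decay estimate of order `(r, σ)` can
hold only if `σ ≤ ε`. -/
theorem result (ε : ℝ) (hε : 0 < ε) :
    ∃ ν : ℝ → M2, BoundedPeriodic ν ∧ (∀ t, (ν t).IsHermitian) ∧
      (∃ m : ℝ → ℝ, (range m).Finite ∧ ∀ t, ν t = (m t : ℂ) • σ₁) ∧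
      WellPosed ν ∧ Dispersive ν ∧
      ∀ r σ : ℝ, 0 ≤ r → 0 < σ → DecayEstimate ν r σ → σ ≤ ε := by
  obtain ⟨N, hN⟩ := exists_nat_gt (1 / ε)
  have hN0 : (0:ℝ) < N := lt_trans (by positivity) hN
  have hN1 : 1 ≤ N := by
    have : 0 < N := by exact_mod_cast hN0
    omega
  obtain ⟨T, m, hT, hm, hfin, hper, hex, ⟨σ', hσ', hdec⟩, hslow⟩ := H76DD.main_words N hN1
  refine ⟨fun t => (m t : ℂ) • σ₁, ⟨?_, ?_, ⟨T, hT, fun t => ?_⟩⟩, ?_,
    ⟨m, hfin, fun t => rfl⟩, ?_, ⟨2, σ', by norm_num, hσ', ?_⟩, ?_⟩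
  · obtain ⟨B, hB⟩ := hfin.isBounded.exists_norm_le
    refine ⟨B, fun t i j => ?_⟩
    simp only [Matrix.smul_apply, smul_eq_mul, norm_mul, Complex.norm_real]
    have h1 : ‖σ₁ i j‖ ≤ 1 := by
      fin_cases i <;> fin_cases j <;> simp [σ₁]
    calc _ ≤ ‖m t‖ * 1 := mul_le_mul_of_nonneg_left h1 (norm_nonneg _)
      _ ≤ B := by rw [mul_one]; exact hB _ ⟨t, rfl⟩
  · intro i j
    simp only [Matrix.smul_apply, smul_eq_mul]
    exact (Complex.measurable_ofReal.comp hm).mul_const _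
  · simp only [hper t]
  · intro t
    ext i j
    fin_cases i <;> fin_cases j <;> simp [σ₁]
  · intro f t hf ht
    obtain ⟨α, hα, hu⟩ := hex (hf.toLp f) t ht
    refine ⟨α, ?_, fun α' hα' => ?_⟩
    · rw [solvesAt_iff hf (Lp.memLp α), Lp.toLp_coeFn]
      exact hα
    · obtain ⟨F, A, U, hF, hA, -⟩ := id hα'
      have h1 := hu (hA.mem.toLp α') ((solvesAt_iff hf hA.mem).1 hα')
      rw [← h1]
      exact hA.mem.coeFn_toLp.symm
  · rw [decayEstimate_iff]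
    exact hdec
  · intro r σ hr _ h
    rw [decayEstimate_iff] at h
    refine (hslow r σ hr h).trans ?_
    rw [div_le_iff₀ hN0]
    rw [div_lt_iff₀ hε] at hN
    linarith

end Pool.Agent.Results.MP_24bb3f_an.ArbitrarilySlow
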